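import Mathlib

set_option autoImplicit false

namespace Pool.Agent.Results.MP_3821a3_co.Char

open Finset MvPolynomial

noncomputable def AT {F : Type} [Field F] {n : ℕ} (p : MvPolynomial (Fin n) F) : ℕ :=
  sInf {k | ∃ α ∈ p.support, ∑ i, α i = p.totalDegree ∧ k = univ.sup α + 1}

noncomputable def ed {m n : ℕ} (E : Fin m → Finset (Fin n)) : ℝ :=
  sSup {r | ∃ X : Finset (Fin n), X.Nonempty ∧
    r = ((univ.filter (fun j => E j ⊆ X)).card : ℝ) / X.card}

theorem result (B : ℕ) : ∃ (F : Type) (_ : Field F) (n m : ℕ) (E : Fin m → Finset (Fin n))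
    (a : Fin m → Fin n → F), Function.Injective E ∧ (∀ j, 2 ≤ (E j).card) ∧
    (∀ j, ∀ i ∈ E j, a j i ≠ 0) ∧ (∀ j, ∃ i ∈ E j, ∃ i' ∈ E j, a j i ≠ a j i') ∧ ed E = 1 ∧
    B < AT (∏ j, ∑ i ∈ E j, C (a j i) * X i) := by
  obtain ⟨p, hB, hp⟩ := Nat.exists_infinite_primes (B + 2)
  have := Fact.mk hp
  let F := AlgebraicClosure (ZMod p)
  let t : Fin (p + p) → F := fun i => Infinite.natEmbedding F i
  have ht : Function.Injective t := (Infinite.natEmbedding F).injective.comp Fin.val_injective
  have c2 : ∀ j : Fin (p + p), 2 ≤ (univ.erase j).card := fun j => by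
    rw [card_erase_of_mem (mem_univ _), card_univ, Fintype.card_fin]; omega
  have nz : ∀ j, ∀ i ∈ univ.erase j, t i - t j ≠ 0 := fun j i hi =>
    sub_ne_zero.2 (ht.ne (mem_erase.1 hi).1)
  refine ⟨F, inferInstance, p + p, p + p, fun j => univ.erase j, fun j i => t i - t j,
    fun i j h => erase_injOn univ (by simp) (by simp) h, c2, nz, fun j => ?_, ?_, ?_⟩
  · obtain ⟨i, hi, i', hi', h⟩ := one_lt_card.1 (c2 j)
    exact ⟨i, hi, i', hi', fun e => h (ht (sub_left_injective e))⟩
  · refine IsGreatest.csSup_eq ⟨⟨univ, ⟨⟨0, by omega⟩, mem_univ _⟩, ?_⟩, ?_⟩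
    · rw [filter_true_of_mem fun _ _ => subset_univ _, div_self]
      simp; omega
    · rintro _ ⟨X, hX, rfl⟩
      refine div_le_one_of_le₀ (Nat.cast_le.2 ?_) (by positivity)
      by_cases h : X = univ
      · rw [h]
        exact card_filter_le _ _
      obtain ⟨v, hv⟩ : ∃ v, v ∉ X := by simpa [eq_univ_iff_forall] using h
      refine (card_le_one.2 fun i hi j hj => ?_).trans hX.card_pos
      have k : ∀ i : Fin (p + p), univ.erase i ⊆ X → v = i := fun i hi => by
        by_contra e
        exact hv (hi (by simp [e]))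
      exact (k i (mem_filter.1 hi).2).symm.trans (k j (mem_filter.1 hj).2)
  set P : MvPolynomial (Fin (p + p)) F := ∏ j, ∑ i ∈ univ.erase j, C (t i - t j) * X i with hP
  have P0 : P ≠ 0 := prod_ne_zero_iff.2 fun j _ e => by
    obtain ⟨i, hi⟩ := card_pos.1 (show 0 < (univ.erase j).card by have := c2 j; omega)
    have := congrArg (eval (Pi.single i 1)) e
    simp only [map_sum, map_mul, eval_C, eval_X, map_zero] at this
    rw [sum_eq_single i (fun b _ hb => by simp [hb]) (fun h => (h hi).elim)] at this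
    exact nz j i hi (by simpa using this)
  let J : Ideal (MvPolynomial (Fin (p + p)) F) :=
    Ideal.span ((fun s => monomial s (1 : F)) '' Set.range fun i => Finsupp.single i p)
  have hJ : ∀ c : Fin (p + p) → F, Ideal.span {∑ i, C (c i) * X i} ^ p ≤ J := fun c => by
    rw [Ideal.span_singleton_pow, Ideal.span_singleton_le_iff_mem, sum_pow_char]
    refine J.sum_mem fun i _ => ?_
    rw [mul_pow, X_pow_eq_monomial]
    exact J.mul_mem_left _ (Ideal.subset_span ⟨_, ⟨i, rfl⟩, rfl⟩)
  have PJ : P ∈ J := by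
    refine sup_le (hJ fun _ => 1) (hJ t) (Ideal.sup_pow_add_le_pow_sup_pow ?_)
    have := Ideal.prod_mem_prod (s := univ) (I := fun _ : Fin (p + p) =>
      Ideal.span {∑ i, C (1 : F) * X i} ⊔ Ideal.span {∑ i, C (t i) * X i})
      (x := fun j => ∑ i ∈ univ.erase j, C (t i - t j) * X i) fun j _ => by
        have e : ∑ i ∈ univ.erase j, C (t i - t j) * X i =
            -C (t j) * ∑ i, C (1 : F) * X i + ∑ i, C (t i) * X i := by
          rw [sum_erase _ (by simp), mul_sum, ← sum_add_distrib]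
          exact sum_congr rfl fun i _ => by simp only [map_sub, map_one]; ring
        rw [e]
        exact Submodule.add_mem_sup (Ideal.mul_mem_left _ _ (Ideal.mem_span_singleton_self _))
          (Ideal.mem_span_singleton_self _)
    rwa [prod_const, card_univ, Fintype.card_fin] at this
  obtain ⟨α, hα, e⟩ := exists_mem_eq_sup P.support (support_nonempty.2 P0)
    (fun s => s.sum fun _ e => e)
  have := Nat.sInf_mem (s := {k | ∃ α ∈ P.support, ∑ i, α i = P.totalDegree ∧ k = univ.sup α + 1})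
    ⟨_, α, hα, by rw [totalDegree, e, Finsupp.sum_fintype _ _ fun _ => rfl], rfl⟩
  obtain ⟨β, hβ, -, k⟩ := this
  obtain ⟨_, ⟨i, rfl⟩, h⟩ := mem_ideal_span_monomial_image.1 PJ β hβ
  have h1 := h i
  have h2 := le_sup (f := β) (mem_univ i)
  rw [Finsupp.single_eq_same] at h1
  rw [AT, k]
  omega

end Pool.Agent.Results.MP_3821a3_co.Char
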